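import Pool.Agent.V11331.MC.Final

/-!
# A Markov chain without entropy-equal i.i.d. coding of exponentially tailed window

The chain is the Markov chain of maximal entropy on the golden mean shift. Its words of length
`n + 1` have probability at most `λ ^ (1 - n)`, where `λ` is the golden ratio, and its entropy is
`log λ`. If it were a factor of an i.i.d. process `Y` of the same entropy with exponentially tailed
coding window, then the centred random walk `∑ (-log ν{Y_k} - log λ)` would have bounded mean
absolute value. Hence it is degenerate, `ν` is uniform on `λ` points, and `λ` would be an integer.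
-/

set_option autoImplicit false

open MeasureTheory
open scoped ENNReal

namespace Pool.Agent.Results.MP_207c40_pr.GoldenMeanChain

open Pool.Agent.V11331.MC

/-- There is a stationary, irreducible, aperiodic Markov chain with two states and exponential return
times which is not a factor, with exponentially tailed coding window, of any i.i.d. process of the
same entropy. -/
theorem result : ∃ M : Chain Bool, M.Irreducible ∧ M.Aperiodic ∧ M.ExpReturn ∧
    ∃ h : ℝ, M.HasEntropy h ∧
      ∀ (T : Type) [MeasurableSpace T] [StandardBorelSpace T] (ν : Measure T)
        [IsProbabilityMeasure ν], shannon ν = ENNReal.ofReal h →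
        ¬ ∃ Φ : (ℤ → T) → (ℤ → Bool), IsFactorOnto ν Φ M ∧ ExpWindow ν Φ :=
  ⟨gold, gold_irreducible, gold_aperiodic, gold_expReturn, Real.log lam, gold_entropy,
    fun _ _ _ ν _ h => main ν h⟩

end Pool.Agent.Results.MP_207c40_pr.GoldenMeanChain
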